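import Pool.Agent.K3h47.TW.Stm
import Pool.Agent.K3h47.FU.Sep

/-! Towers of abelian covers: points in a fibre (brick FIBRE for helper47). The proof is that of
`Pool.Agent.K3h47.FU.same_fibre`. -/

set_option autoImplicit false
set_option linter.unusedSectionVars false

namespace Pool.Agent.K3h56.TW

open MvPolynomial
open Pool.Agent.K3h47 Pool.Agent.K3h47.FU Pool.Agent.K3h47.TW

theorem t_FIBRE : S_FIBRE := by
  intro r R δ e n h c z z' hz hI hE3 hsec
  classical
  have hne := h.neZero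
  set I := Finset.univ.filter (fun i => z i = 0) with hIdef
  have hmemI : ∀ i, i ∈ I ↔ z i = 0 := fun i => by simp [hIdef]
  have hz'0 : ∀ i, z i = 0 ↔ z' i = 0 := by
    intro i
    have h1 := hz i
    constructor
    · intro h2
      rw [h2, zero_pow (hne i).ne] at h1
      exact pow_eq_zero_iff (hne i).ne |>.1 h1
    · intro h2
      rw [h2, zero_pow (hne i).ne] at h1
      exact pow_eq_zero_iff (hne i).ne |>.1 h1.symm
  set τ : Fin r → ℂˣ := fun i => if hi : z i = 0 then 1 else
    Units.mk0 (z' i / z i) (div_ne_zero (fun h2 => hi ((hz'0 i).2 h2)) hi) with hτdef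
  have hτz : ∀ i, z' i = τ i * z i := by
    intro i
    by_cases hi : z i = 0
    · rw [hi, mul_zero]
      exact (hz'0 i).1 hi
    · simp only [hτdef, dif_neg hi, Units.val_mk0]
      field_simp
  have hτe : ∀ i, τ i ^ e i = 1 := by
    intro i
    by_cases hi : z i = 0
    · simp [hτdef, dif_pos hi]
    · ext
      simp only [hτdef, dif_neg hi, Units.val_pow_eq_pow_val, Units.val_mk0, Units.val_one]
      rw [div_pow, hz i, div_self (pow_ne_zero _ hi)]
  have hτI : ∀ i ∈ I, τ i = 1 := fun i hi => by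
    simp only [hτdef, dif_pos ((hmemI i).1 hi)]
  -- the homomorphism
  set φ := phi τ hτe with hφ
  have hprod : ∀ a : Fin r → ℕ, ∏ i, z' i ^ a i = (∏ i, (τ i : ℂ) ^ a i) * ∏ i, z i ^ a i := by
    intro a
    rw [← Finset.prod_mul_distrib]
    refine Finset.prod_congr rfl fun i _ => ?_
    rw [← mul_pow, ← hτz i]
  have hker : ∀ y y', Good R e c I y → Good R e c I y' → y - y' ∈ φ.ker := by
    intro y y' hy hy'
    have hnz : ∀ w, Good R e c I w → ∏ i, z i ^ aOf w i ≠ 0 := by
      intro w hw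
      refine Finset.prod_ne_zero_iff.2 fun i _ => ?_
      by_cases hi : z i = 0
      · rw [hw.1 i ((hmemI i).2 hi), pow_zero]
        exact one_ne_zero
      · exact pow_ne_zero _ hi
    have h1 := hsec y y' hy hy'
    rw [hprod, hprod] at h1
    have hA := hnz y hy
    have hA' := hnz y' hy'
    have h2 : (∏ i, (τ i : ℂ) ^ aOf y i) = ∏ i, (τ i : ℂ) ^ aOf y' i := by
      have h3 : (∏ i, z i ^ aOf y i) * (∏ i, z i ^ aOf y' i) ≠ 0 := mul_ne_zero hA hA'
      have h4 : ((∏ i, (τ i : ℂ) ^ aOf y i) - ∏ i, (τ i : ℂ) ^ aOf y' i)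
          * ((∏ i, z i ^ aOf y i) * (∏ i, z i ^ aOf y' i)) = 0 := by
        linear_combination -h1
      exact sub_eq_zero.1 ((mul_eq_zero.1 h4).resolve_right h3)
    have h3 : ∏ i, τ i ^ aOf y i = ∏ i, τ i ^ aOf y' i := by
      ext
      push_cast
      exact h2
    -- compare with `φ`
    have h4 : ∀ w : ∀ i, ZMod (e i), (∏ i, τ i ^ aOf w i) * ∏ i, τ i ^ (w i).val
        = ∏ i, τ i ^ (e i - 1) := by
      intro w
      rw [← Finset.prod_mul_distrib]
      refine Finset.prod_congr rfl fun i _ => ?_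
      rw [← pow_add]
      congr 1
      have := ZMod.val_lt (w i)
      rw [aOf]
      omega
    have h5 : ∀ w : ∀ i, ZMod (e i), φ w = Additive.ofMul (∏ i, τ i ^ (w i).val) := by
      intro w
      rw [hφ, phi_apply τ hτe w (fun i => ((w i).val : ℤ)) (fun i => by
        rw [Int.cast_natCast, ZMod.natCast_zmod_val])]
      congr 1
    rw [AddMonoidHom.mem_ker, map_sub, h5, h5, sub_eq_zero]
    congr 1
    have h6 := h4 y
    have h7 := h4 y'
    rw [← h7, h3] at h6
    exact mul_left_cancel h6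
  have hvan := hE3 φ.ker hker
  -- the element of the group
  have hsur := h.sur I hI
  choose! ρ hρ hρ1 hρ0 using hsur
  refine ⟨fun i => if i ∈ I then (Additive.toMul (φ (ρ i)))⁻¹ else τ i, ?_, ?_⟩
  · intro σ hσ
    have h1 : red e σ - ∑ i ∈ I, σ.2 i • ρ i ∈ van (Lam R e) I 0 := by
      refine ⟨(Lam R e).sub_mem ⟨σ, hσ, rfl⟩
        ((Lam R e).sum_mem fun i hi => (Lam R e).zsmul_mem (hρ i hi) _), ?_, by rw [zero_smul]⟩
      intro i hi
      rw [Pi.sub_apply, Finset.sum_apply, Finset.sum_eq_single i]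
      · rw [Pi.smul_apply, hρ1 i hi, zsmul_eq_mul, mul_one]
        exact sub_self _
      · intro j hj hji
        rw [Pi.smul_apply, hρ0 j hj i hi hji.symm, smul_zero]
      · intro h2
        exact absurd hi h2
    have h2 := hvan _ h1
    rw [AddMonoidHom.mem_ker, map_sub, map_sum, sub_eq_zero, hφ,
      phi_apply τ hτe (red e σ) σ.2 (fun i => rfl), ← hφ] at h2
    have h3 : ∏ i, τ i ^ σ.2 i = ∏ i ∈ I, (Additive.toMul (φ (ρ i))) ^ σ.2 i := by
      have h4 := congrArg Additive.toMul h2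
      rw [toMul_ofMul] at h4
      rw [h4, toMul_sum]
      refine Finset.prod_congr rfl fun i _ => ?_
      rw [map_zsmul, toMul_zsmul]
    have h4 : ∏ i, τ i ^ σ.2 i = ∏ i ∈ Finset.univ \ I, τ i ^ σ.2 i := by
      rw [← Finset.prod_sdiff (Finset.subset_univ I), Finset.prod_eq_one (s := I), mul_one]
      intro i hi
      rw [hτI i hi, one_zpow]
    rw [chi, one_zpow, one_mul, ← Finset.prod_sdiff (Finset.subset_univ I)]
    have h5 : ∏ i ∈ Finset.univ \ I, (if i ∈ I then (Additive.toMul (φ (ρ i)))⁻¹ else τ i) ^ σ.2 i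
        = ∏ i ∈ Finset.univ \ I, τ i ^ σ.2 i := by
      refine Finset.prod_congr rfl fun i hi => ?_
      rw [if_neg (Finset.mem_sdiff.1 hi).2]
    have h6 : ∏ i ∈ I, (if i ∈ I then (Additive.toMul (φ (ρ i)))⁻¹ else τ i) ^ σ.2 i
        = (∏ i ∈ I, (Additive.toMul (φ (ρ i))) ^ σ.2 i)⁻¹ := by
      rw [← Finset.prod_inv_distrib]
      refine Finset.prod_congr rfl fun i hi => ?_
      rw [if_pos hi, inv_zpow]
    rw [h5, h6, ← h4, h3, mul_inv_cancel]
  · intro i
    by_cases hi : i ∈ I
    · rw [(hmemI i).1 hi, mul_zero]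
      exact (hz'0 i).1 ((hmemI i).1 hi)
    · simp only [if_neg hi]
      exact hτz i

end Pool.Agent.K3h56.TW
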